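import Pool.Agent.H24.Word1
import Pool.Agent.H24.Word2

namespace Pool.Agent.Results.MP_c3beeb_co.NoFinite

open Pool.Agent.H24

/-- `a` and `b` alternate in `w`: both occur, and after deleting all other letters no two
consecutive letters are equal. -/
def Alt {V : Type} [DecidableEq V] (w : List V) (a b : V) : Prop :=
  a ∈ w ∧ b ∈ w ∧ (w.filter (fun x => x = a ∨ x = b)).IsChain (· ≠ ·)

/-- Word-representable graphs. -/
def Rep {V : Type} [DecidableEq V] (G : SimpleGraph V) : Prop :=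
  ∃ w : List V, (∀ v, v ∈ w) ∧ ∀ a b, a ≠ b → (G.Adj a b ↔ Alt w a b)

def fan (n : ℕ) : SimpleGraph (Fin (n + 1)) where
  Adj a b := a.1 ≠ b.1 ∧ (a.1 = 0 ∨ b.1 = 0 ∨ a.1 + 1 = b.1 ∨ b.1 + 1 = a.1)
  symm := ⟨fun a b h => by omega⟩
  loopless := ⟨fun a h => by omega⟩

def wheel (n : ℕ) : SimpleGraph (Fin (n + 1)) where
  Adj a b := a.1 ≠ b.1 ∧ (a.1 = 0 ∨ b.1 = 0 ∨ a.1 + 1 = b.1 ∨ b.1 + 1 = a.1 ∨
    (a.1 = 1 ∧ b.1 = n) ∨ (a.1 = n ∧ b.1 = 1))
  symm := ⟨fun a b h => by omega⟩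
  loopless := ⟨fun a h => by omega⟩

def pos1 (n : ℕ) : Sym2 (Fin (n + 1)) → ℕ :=
  Sym2.lift ⟨fun a b => if min a.1 b.1 = 0 then 3 * max a.1 b.1 + 1 else 3 * min a.1 b.1,
    fun a b => by simp only [min_comm, max_comm]⟩

def pos2 (n : ℕ) : Sym2 (Fin (n + 1)) → ℕ :=
  Sym2.lift ⟨fun a b => if min a.1 b.1 = 0 then 3 * n + 6 + max a.1 b.1 else 3 * min a.1 b.1 + 5,
    fun a b => by simp only [min_comm, max_comm]⟩

lemma edge_form {n : ℕ} (e : (fan n).edgeSet) : ∃ a b : Fin (n + 1), e.1 = s(a, b) ∧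
    ((a.1 = 0 ∧ 0 < b.1 ∧ pos1 n e = 3 * b.1 + 1 ∧ pos2 n e = 3 * n + 6 + b.1) ∨
     (0 < a.1 ∧ b.1 = a.1 + 1 ∧ pos1 n e = 3 * a.1 ∧ pos2 n e = 3 * a.1 + 5)) := by
  obtain ⟨e, he⟩ := e
  induction e using Sym2.ind with
  | _ a b =>
    have h : (fan n).Adj a b := he
    simp only [fan] at h
    by_cases hab : a.1 < b.1
    · refine ⟨a, b, rfl, ?_⟩
      simp only [pos1, pos2, Sym2.lift_mk]
      split_ifs <;> omega
    · refine ⟨b, a, Sym2.eq_swap, ?_⟩
      simp only [pos1, pos2, Sym2.lift_mk]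
      split_ifs <;> omega

lemma rep_fan (n : ℕ) : Rep (fan n).lineGraph := by
  classical
  have ext : ∀ (e f : (fan n).edgeSet) a b c d, e.1 = s(a, b) → f.1 = s(c, d) → a.1 = c.1 →
      b.1 = d.1 → e = f := by
    intro e f a b c d h1 h2 h3 h4
    apply Subtype.ext
    rw [h1, h2, Fin.ext h3, Fin.ext h4]
  obtain ⟨w, hw, h⟩ := Word.chords (fan n).lineGraph (fun e => pos1 n e) (fun e => pos2 n e)
    (fun e => by
      obtain ⟨a, b, -, h⟩ := edge_form e
      have := b.2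
      omega)
    (fun e f h => by
      obtain ⟨a, b, h1, h2⟩ := edge_form e
      obtain ⟨c, d, h3, h4⟩ := edge_form f
      exact ext e f a b c d h1 h3 (by omega) (by omega))
    (fun e f h => by
      obtain ⟨a, b, h1, h2⟩ := edge_form e
      obtain ⟨c, d, h3, h4⟩ := edge_form f
      have := b.2
      have := d.2
      exact ext e f a b c d h1 h3 (by omega) (by omega))
    (fun e f => by
      obtain ⟨a, b, h1, h2⟩ := edge_form e
      obtain ⟨c, d, h3, h4⟩ := edge_form f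
      have := b.2
      have := d.2
      omega)
    (fun e f hef => by
      obtain ⟨a, b, h1, h2⟩ := edge_form e
      obtain ⟨c, d, h3, h4⟩ := edge_form f
      have := b.2
      have := d.2
      have h5 : ¬ (a.1 = c.1 ∧ b.1 = d.1) := fun h => hef (ext e f a b c d h1 h3 h.1 h.2)
      have h6 : (fan n).lineGraph.Adj e f ↔ (a.1 = c.1 ∨ a.1 = d.1 ∨ b.1 = c.1 ∨ b.1 = d.1) := by
        rw [SimpleGraph.lineGraph_adj_iff_exists, h1, h3]
        simp only [Sym2.mem_iff, ← Fin.ext_iff]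
        constructor
        · rintro ⟨-, v, rfl | rfl, h | h⟩ <;> tauto
        · rintro (h | h | h | h)
          · exact ⟨hef, a, Or.inl rfl, Or.inl h⟩
          · exact ⟨hef, a, Or.inl rfl, Or.inr h⟩
          · exact ⟨hef, b, Or.inr rfl, Or.inl h⟩
          · exact ⟨hef, b, Or.inr rfl, Or.inr h⟩
      rw [h6]
      omega)
  refine ⟨w, hw, fun a b hab => ?_⟩
  rw [h a b hab]
  simp only [Alt, hw, true_and]

def vx (m i : ℕ) : Fin (m + 1 + 1) := ⟨i % (m + 1) + 1, by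
  have : i % (m + 1) < m + 1 := Nat.mod_lt i (Nat.succ_pos m)
  omega⟩

lemma vx1 {m i : ℕ} (h : i < m + 1) : (vx m i).1 = i + 1 := by
  simp [vx, Nat.mod_eq_of_lt h]

lemma vx2 {m i : ℕ} (h : i < m + 1) :
    (i < m ∧ (vx m (i + 1)).1 = i + 2) ∨ (i = m ∧ (vx m (i + 1)).1 = 1) := by
  by_cases e : i = m
  · subst e; simp [vx]
  · have : i + 1 < m + 1 := by omega
    left
    exact ⟨by omega, vx1 this⟩

lemma mod_succ (m i : ℕ) : vx m (i + 1) = vx m (i % (m + 1) + 1) := by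
  simp [vx]

lemma mod_self (m i : ℕ) : vx m i = vx m (i % (m + 1)) := by
  simp [vx]

def sp (m i : ℕ) : (wheel (m + 1)).edgeSet := ⟨s(0, vx m i), by
  simp [wheel, vx]⟩

def rim (m : ℕ) (hm : 3 ≤ m) (i : ℕ) : (wheel (m + 1)).edgeSet := ⟨s(vx m i, vx m (i + 1)), by
  rw [mod_succ, mod_self m i]
  have h : i % (m + 1) < m + 1 := Nat.mod_lt i (Nat.succ_pos m)
  have h1 := vx1 h
  have h2 := vx2 h
  simp only [wheel, SimpleGraph.mem_edgeSet]
  omega⟩

lemma not_rep_wheel (m : ℕ) (hm : 3 ≤ m) : ¬ Rep (wheel (m + 1)).lineGraph := by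
  classical
  rintro ⟨w, hw, h⟩
  obtain ⟨h1, h2⟩ := Word.struct (wheel (m + 1)).lineGraph w hw (fun a b hab => by
    rw [h a b hab]; simp only [Alt, hw, true_and])
  have X : Word.Ax (wheel (m + 1)).lineGraph.Adj (Word.Le w) :=
    ⟨Word.Le.refl w, Word.Le.trans, Word.Le.anti (hw _), fun h => h.symm, h1 _ _, h2 _ _ _ _⟩
  have adj : ∀ (e f : (wheel (m + 1)).edgeSet) a b c d, e.1 = s(a, b) → f.1 = s(c, d) →
      ((e = f ↔ (a.1 = c.1 ∧ b.1 = d.1) ∨ (a.1 = d.1 ∧ b.1 = c.1)) ∧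
      ((wheel (m + 1)).lineGraph.Adj e f ↔
        e ≠ f ∧ (a.1 = c.1 ∨ a.1 = d.1 ∨ b.1 = c.1 ∨ b.1 = d.1))) := by
    intro e f a b c d h1 h3
    constructor
    · rw [Subtype.ext_iff, h1, h3, Sym2.eq_iff]
      simp only [Fin.ext_iff]
    · rw [SimpleGraph.lineGraph_adj_iff_exists, h1, h3]
      simp only [Sym2.mem_iff, ← Fin.ext_iff]
      constructor
      · rintro ⟨hef, v, rfl | rfl, h | h⟩ <;> tauto
      · rintro ⟨hef, h | h | h | h⟩
        · exact ⟨hef, a, Or.inl rfl, Or.inl h⟩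
        · exact ⟨hef, a, Or.inl rfl, Or.inr h⟩
        · exact ⟨hef, b, Or.inr rfl, Or.inl h⟩
        · exact ⟨hef, b, Or.inr rfl, Or.inr h⟩
  have z : (0 : Fin (m + 1 + 1)).1 = 0 := rfl
  refine Word.no_wheel (s := sp m) (r := rim m hm) X m hm ⟨?_, ?_, ?_, ?_, ?_, ?_⟩
  · intro i hi j hj hij
    obtain ⟨k1, k2⟩ := adj (sp m i) (sp m j) _ _ _ _ rfl rfl
    have := vx1 hi; have := vx1 hj
    rw [k2, Ne, k1]; omega
  · intro i hi j hj
    obtain ⟨k1, -⟩ := adj (sp m i) (sp m j) _ _ _ _ rfl rfl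
    have := vx1 hi; have := vx1 hj
    rw [k1]; omega
  · intro i hi j hj
    obtain ⟨k1, -⟩ := adj (rim m hm i) (sp m j) _ _ _ _ rfl rfl
    have := vx1 hi; have := vx1 hj; have := vx2 hi
    rw [Ne, k1]; omega
  · intro i hi j hj
    obtain ⟨k1, k2⟩ := adj (rim m hm i) (sp m j) _ _ _ _ rfl rfl
    have := vx1 hi; have := vx1 hj; have := vx2 hi
    rw [k2, Ne, k1]; omega
  · intro i hi j hj
    obtain ⟨k1, -⟩ := adj (rim m hm i) (rim m hm j) _ _ _ _ rfl rfl
    have := vx1 hi; have := vx1 hj; have := vx2 hi; have := vx2 hj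
    rw [k1]; omega
  · intro i hi j hj
    obtain ⟨k1, k2⟩ := adj (rim m hm i) (rim m hm j) _ _ _ _ rfl rfl
    have := vx1 hi; have := vx1 hj; have := vx2 hi; have := vx2 hj
    rw [k2, Ne, k1]; omega

lemma to_fan {k n : ℕ} (H : SimpleGraph (Fin k)) (hk : k < n) (h : H.IsContained (wheel n)) :
    H.IsContained (fan n) := by
  obtain ⟨f⟩ := h
  obtain ⟨j, hj0, hj⟩ : ∃ j : Fin (n + 1), j.1 ≠ 0 ∧ ∀ x, f x ≠ j := by
    by_contra hc
    push Not at hc
    have hs : Function.Surjective (fun o : Option (Fin k) => o.elim (0 : Fin (n + 1)) f) := by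
      intro j
      by_cases h0 : j.1 = 0
      · exact ⟨none, (Fin.ext h0).symm⟩
      · obtain ⟨x, hx⟩ := hc j h0
        exact ⟨some x, hx⟩
    have := Fintype.card_le_of_surjective _ hs
    simp at this
    omega
  let g : Fin (n + 1) → Fin (n + 1) := fun a =>
    ⟨if a.1 = 0 then 0 else if j.1 < a.1 then a.1 - j.1 else a.1 + n - j.1, by
      have := a.2; have := j.2; split_ifs <;> omega⟩
  refine ⟨⟨⟨fun x => g (f x), fun {x y} hxy => ?_⟩, fun x y hxy => ?_⟩⟩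
  · have h1 : (wheel n).Adj (f x) (f y) := f.toHom.map_adj hxy
    have h2 : (f x).1 ≠ j.1 := fun h => hj x (Fin.ext h)
    have h3 : (f y).1 ≠ j.1 := fun h => hj y (Fin.ext h)
    have := (f x).2; have := (f y).2; have := j.2
    simp only [wheel] at h1
    simp only [fan, g]
    split_ifs <;> omega
  · have h1 : (g (f x)).1 = (g (f y)).1 := congrArg Fin.val hxy
    have h2 : (f x).1 ≠ j.1 := fun h => hj x (Fin.ext h)
    have h3 : (f y).1 ≠ j.1 := fun h => hj y (Fin.ext h)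
    have h4 : (f x).1 = (f y).1 := by
      have := (f x).2; have := (f y).2; have := j.2
      simp only [g] at h1
      split_ifs at h1 <;> omega
    exact f.injective (Fin.ext h4)

/-- No finite family of forbidden subgraphs characterises the graphs whose line graph is
word-representable. -/
theorem result : ¬ ∃ F : Set (Σ k : ℕ, SimpleGraph (Fin k)), F.Finite ∧
    ∀ (n : ℕ) (G : SimpleGraph (Fin n)),
      Rep G.lineGraph ↔ ∀ H ∈ F, ¬ H.2.IsContained G := by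
  rintro ⟨F, hF, h⟩
  obtain ⟨c, hc⟩ := (hF.image (fun H => H.1)).bddAbove
  have h1 := not_rep_wheel (c + 3) (by omega)
  rw [h] at h1
  push Not at h1
  obtain ⟨H, hH, h2⟩ := h1
  have h3 : H.1 ≤ c := hc ⟨H, hH, rfl⟩
  exact (h _ _).1 (rep_fan _) H hH (to_fan H.2 (by omega) h2)

end Pool.Agent.Results.MP_c3beeb_co.NoFinite
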